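import Mathlib

/-! THEOREM LCH, block NRM: the numbers. -/

set_option autoImplicit false

namespace Pool.Agent.Work.MP_db9399_lh.helper99

/-- one type: the number of rounds -/
theorem one_type {m : ℕ} {f D : ℝ} (hm : 3 ≤ m) (hf : 0 < f)
    (hD : (m : ℝ) * (2 * m + 1) ^ 2 ≤ f * D) (hD0 : 0 < D) :
    ∃ w : ℕ, ((m : ℝ) - 1) * w ≤ (1 - 1 / (2 * m + 1)) * (f * D / (2 * m + 1)) ∧
      (1 - 2 / (2 * m + 1)) * (f * D / (2 * m + 1)) ≤ ((m : ℝ) - 1) * w ∧
      (2 * (m : ℝ) + 1) * m * w ≤ (1 + 1 / m) * (f * D) ∧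
      f * D - (2 * (m : ℝ) + 1) * m ≤ (2 * (m : ℝ) + 1) * m * w := by
  have hm3 : (3 : ℝ) ≤ m := by exact_mod_cast hm
  obtain ⟨N, hN⟩ : ∃ N : ℝ, N = 2 * (m : ℝ) + 1 := ⟨_, rfl⟩
  rw [← hN]
  rw [← hN] at hD
  have hN0 : 0 < N := by linarith
  have hm1 : 0 < (m : ℝ) - 1 := by linarith
  have hm0 : 0 < (m : ℝ) := by linarith
  obtain ⟨q, hq⟩ : ∃ q : ℝ, q = f * D / N := ⟨_, rfl⟩
  rw [← hq]
  have hfD : 0 < f * D := mul_pos hf hD0
  have hq0 : 0 < q := by rw [hq]; positivity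
  have hqN : q * N = f * D := by rw [hq]; field_simp
  have hN1 : 1 / N ≤ 1 := by
    rw [div_le_one hN0]; linarith
  have hN1' : (1 - 1 / N) * N = N - 1 := by field_simp
  have hx0 : 0 ≤ (1 - 1 / N) * q / ((m : ℝ) - 1) := by
    apply div_nonneg _ hm1.le
    apply mul_nonneg _ hq0.le
    linarith
  obtain ⟨w, hw⟩ : ∃ w : ℕ, w = ⌊(1 - 1 / N) * q / ((m : ℝ) - 1)⌋₊ := ⟨_, rfl⟩
  have w_le : ((m : ℝ) - 1) * w ≤ (1 - 1 / N) * q := by
    have := Nat.floor_le hx0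
    rw [← hw, le_div_iff₀ hm1] at this
    linarith
  have w_ge : (1 - 1 / N) * q - ((m : ℝ) - 1) ≤ ((m : ℝ) - 1) * w := by
    have := (Nat.lt_floor_add_one ((1 - 1 / N) * q / ((m : ℝ) - 1))).le
    rw [← hw, div_le_iff₀ hm1] at this
    linarith
  refine ⟨w, w_le, ?_, ?_, ?_⟩
  · refine le_trans ?_ w_ge
    have h1 : ((m : ℝ) - 1) * N ≤ q := by
      rw [hq, le_div_iff₀ hN0]
      nlinarith
    have h2 : (m : ℝ) - 1 ≤ q / N := by rw [le_div_iff₀ hN0]; exact h1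
    have h3 : (1 - 1 / N) * q = (1 - 2 / N) * q + q / N := by ring
    linarith
  · have h1 : N * (((m : ℝ) - 1) * w) ≤ (N - 1) * q := by
      have := mul_le_mul_of_nonneg_left w_le hN0.le
      calc N * (((m : ℝ) - 1) * w) ≤ N * ((1 - 1 / N) * q) := this
        _ = ((1 - 1 / N) * N) * q := by ring
        _ = (N - 1) * q := by rw [hN1']
    have h2 : ((m : ℝ) - 1) * (N * m * w) ≤ m * ((N - 1) * q) := by
      have := mul_le_mul_of_nonneg_left h1 hm0.le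
      linarith
    have h3 : m * ((N - 1) * q) ≤ ((m : ℝ) - 1) * ((1 + 1 / m) * (f * D)) := by
      rw [← hqN]
      have h4 : (m : ℝ) * (N - 1) ≤ ((m : ℝ) - 1) * (1 + 1 / m) * N := by
        have h5 : ((m : ℝ) - 1) * (1 + 1 / m) * N = (((m : ℝ) - 1) * (m + 1) * N) / m := by
          field_simp
        rw [h5, le_div_iff₀ hm0, hN]
        nlinarith
      have := mul_le_mul_of_nonneg_right h4 hq0.le
      linarith
    exact le_of_mul_le_mul_left (h2.trans h3) hm1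
  · have h1 : (N - 1) * q - N * ((m : ℝ) - 1) ≤ N * (((m : ℝ) - 1) * w) := by
      have := mul_le_mul_of_nonneg_left w_ge hN0.le
      calc (N - 1) * q - N * ((m : ℝ) - 1) = ((1 - 1 / N) * N) * q - N * ((m : ℝ) - 1) := by
            rw [hN1']
        _ = N * ((1 - 1 / N) * q - ((m : ℝ) - 1)) := by ring
        _ ≤ _ := this
    have h2 : m * ((N - 1) * q) - m * (N * ((m : ℝ) - 1)) ≤ ((m : ℝ) - 1) * (N * m * w) := by
      have := mul_le_mul_of_nonneg_left h1 hm0.le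
      linarith
    have h3 : ((m : ℝ) - 1) * (f * D) ≤ m * ((N - 1) * q) := by
      rw [← hqN]
      have h4 : ((m : ℝ) - 1) * N ≤ m * (N - 1) := by rw [hN]; nlinarith
      have := mul_le_mul_of_nonneg_right h4 hq0.le
      linarith
    have h5 : ((m : ℝ) - 1) * (f * D - N * m) ≤ ((m : ℝ) - 1) * (N * m * w) := by
      linarith
    exact le_of_mul_le_mul_left h5 hm1

/-- the numbers `w0`, `wq`, `W1`; `f`, `q`: the proportions `f0`, `fq` -/
theorem numbers {κ δe f q : ℝ} {l m r S ν K1 : ℕ} (hκ : 0 < κ) (hδe : 0 < δe)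
    (hl1 : 6 / κ ≤ 2 * (l : ℝ) + 1) (hl : 3 ≤ l) (hν : ν = 3 * (K1 + 1) ^ 2)
    (hq : q = 2 / (3 * (2 * (l : ℝ) + 1)) * (((S : ℝ) + 1 - ν) / ((S : ℝ) + 1)))
    (hf : f = 1 - 2 / (3 * (2 * (l : ℝ) + 1)) - 1 / ((2 * (l : ℝ) + 1) * ((S : ℝ) + 1)) - 2 * q)
    (hS : ν ≤ S) (hS1 : 2 * ((K1 : ℝ) + 1) ^ 2 + 1 ≤ δe / 2 * (S + 1))
    (hS2 : 24 * (2 * ((K1 : ℝ) + 1) ^ 2 + 1) ≤ S + 1)
    (hm : 6 * (2 * l + 1) * (S + 1) ≤ m) :
    ∃ d0 : ℕ, ∀ d : ℕ, d0 ≤ d → ∃ w0 wq W1 : ℕ,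
      ((m : ℝ) - 1) * w0 ≤ (1 - 1 / (2 * m + 1)) * (f * d / (2 * m + 1)) ∧
      ((m : ℝ) - 1) * wq ≤ (1 - 1 / (2 * m + 1)) * (q * d / (2 * m + 1)) ∧
      (1 - 2 / (2 * m + 1)) * (f * d / (2 * m + 1)) ≤ ((m : ℝ) - 1) * w0 ∧
      (1 - 2 / (2 * m + 1)) * (q * d / (2 * m + 1)) ≤ ((m : ℝ) - 1) * wq ∧
      (2 * (m : ℝ) + 1) * m * (w0 + 2 * wq) ≤ (1 - 1 / (2 * (2 * l + 1))) * d ∧
      (1 - 1 / (2 * l + 1)) * d ≤ (2 * (m : ℝ) + 1) * m * (w0 + 2 * wq) ∧
      (2 * m + 1) * (m * (w0 + 3 * wq)) + W1 = d + 2 ∧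
      (W1 : ℝ) ≤ d / (12 * (2 * l + 1)) ∧ (W1 : ℝ) ≤ δe * d ∧
      ((K1 : ℝ) + 1) ^ 2 * ((d : ℝ) / ((2 * l + 1) * (S + 1)) + 8 * (d : ℝ) / (2 * m + 1) + 1) ≤
        W1 ∧
      (2 * (m : ℝ) + 1) * m * (w0 + 3 * wq) + 3 * ((2 * (m : ℝ) + 1) * m) ≤ d ∧
      (1 - κ) * d + (2 * m + 1) * (r + 1) ≤ (2 * (m : ℝ) + 1) * m * w0 := by
  have hl3 : (3 : ℝ) ≤ l := by exact_mod_cast hl
  obtain ⟨L, hL⟩ : ∃ L : ℝ, L = 2 * (l : ℝ) + 1 := ⟨_, rfl⟩
  obtain ⟨N, hN⟩ : ∃ N : ℝ, N = 2 * (m : ℝ) + 1 := ⟨_, rfl⟩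
  obtain ⟨Z, hZ⟩ : ∃ Z : ℝ, Z = (S : ℝ) + 1 := ⟨_, rfl⟩
  obtain ⟨C, hC⟩ : ∃ C : ℝ, C = ((K1 : ℝ) + 1) ^ 2 := ⟨_, rfl⟩
  rw [← hL] at hl1 hq hf
  rw [← hZ] at hq hf hS1 hS2
  rw [← hC] at hS1 hS2
  have hmr : 6 * L * Z ≤ m := by
    have : ((6 * (2 * l + 1) * (S + 1) : ℕ) : ℝ) ≤ m := by exact_mod_cast hm
    push_cast at this
    rw [hL, hZ]
    exact this
  have hνr : (ν : ℝ) = 3 * C := by rw [hν, hC]; push_cast; ring
  have hSr : (ν : ℝ) ≤ S := by exact_mod_cast hS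
  have hC1 : 1 ≤ C := by
    rw [hC]
    have : (0 : ℝ) ≤ K1 := Nat.cast_nonneg _
    nlinarith only [this]
  have hL7 : 7 ≤ L := by linarith only [hL, hl3]
  have hL0 : 0 < L := by linarith only [hL7]
  have hZ72 : 72 ≤ Z := by linarith only [hS2, hC1]
  have hZ0 : 0 < Z := by linarith only [hZ72]
  have hLZ : 504 ≤ L * Z := by nlinarith only [hL7, hZ72]
  have hLZ0 : 0 < L * Z := by positivity
  have hm0 : 0 < (m : ℝ) := by linarith only [hmr, hLZ]
  have hm3 : 3 ≤ m := by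
    have h1 : 1 ≤ S + 1 := by omega
    have h2 : 6 * (2 * l + 1) * 1 ≤ 6 * (2 * l + 1) * (S + 1) := Nat.mul_le_mul_left _ h1
    omega
  have hN0 : 0 < N := by linarith only [hN, hm0]
  -- the proportions
  have hqv : q = 2 / (3 * L) - 2 * C / (L * Z) := by
    rw [hq, hνr, hZ]
    have : (S : ℝ) + 1 ≠ 0 := by rw [← hZ]; exact hZ0.ne'
    field_simp
  have hq0 : 0 < q := by
    rw [hq]
    apply mul_pos (by positivity)
    apply div_pos _ hZ0
    linarith only [hZ, hSr]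
  have hqle : q ≤ 2 / (3 * L) := by
    rw [hqv]
    have : 0 ≤ 2 * C / (L * Z) := by positivity
    linarith only [this]
  have hsum3 : f + 3 * q = 1 - (2 * C + 1) / (L * Z) := by
    rw [hf, hqv]
    field_simp
    ring
  have hsum2 : f + 2 * q = 1 - 2 / (3 * L) - 1 / (L * Z) := by
    rw [hf]; ring
  have hLZs : 1 / (L * Z) ≤ 1 / (72 * L) := by
    apply one_div_le_one_div_of_le (by positivity)
    nlinarith only [hL0, hZ72]
  have hflow : 1 - 3 / L ≤ f := by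
    have h1 : 3 / L = 2 / (3 * L) + 1 / L + 2 * (2 / (3 * L)) := by
      field_simp; ring
    have h2 : 1 / (72 * L) ≤ 1 / L := one_div_le_one_div_of_le hL0 (by linarith only [hL0])
    linarith only [h1, h2, hLZs, hqle, hf]
  have hf0 : 0 < f := by
    have : 3 / L ≤ 3 / 7 := by
      rw [div_le_div_iff₀ hL0 (by norm_num)]; linarith only [hL7]
    linarith only [this, hflow]
  have h3κ : 3 / L ≤ κ / 2 := by
    rw [div_le_iff₀ hL0]
    rw [div_le_iff₀ hκ] at hl1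
    linarith only [hl1]
  obtain ⟨T, hT⟩ : ∃ T : ℝ, T = (2 * (m : ℝ) + 1) * m := ⟨_, rfl⟩
  have hT0 : 0 < T := by rw [hT]; positivity
  obtain ⟨d1, hd1⟩ := exists_nat_ge (1 + m * N ^ 2 / f + m * N ^ 2 / q + 2 * (T + N * (r + 1)) / κ +
    12 * L * (3 * T) + (4 * T + 2) * (24 * L) + (4 * T + 2) * (2 / δe) + L * Z * (C + 3 * T))
  refine ⟨d1, fun d hd => ?_⟩
  have hdr : 1 + m * N ^ 2 / f + m * N ^ 2 / q + 2 * (T + N * (r + 1)) / κ +
    12 * L * (3 * T) + (4 * T + 2) * (24 * L) + (4 * T + 2) * (2 / δe) + L * Z * (C + 3 * T) ≤ (d : ℝ) :=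
    hd1.trans (by exact_mod_cast hd)
  have p1 : 0 ≤ m * N ^ 2 / f := by positivity
  have p2 : 0 ≤ m * N ^ 2 / q := by positivity
  have p3 : 0 ≤ 2 * (T + N * (r + 1)) / κ := by positivity
  have p4 : 0 ≤ 12 * L * (3 * T) := by positivity
  have p5 : 0 ≤ (4 * T + 2) * (24 * L) := by positivity
  have p6 : 0 ≤ (4 * T + 2) * (2 / δe) := by positivity
  have p7 : 0 ≤ L * Z * (C + 3 * T) := by positivity
  have hd0 : 0 < (d : ℝ) := by linarith only [hdr, p1, p2, p3, p4, p5, p6, p7]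
  have r1 : m * N ^ 2 ≤ f * d := by
    have : m * N ^ 2 / f ≤ d := by linarith only [hdr, p1, p2, p3, p4, p5, p6, p7]
    rw [div_le_iff₀ hf0] at this
    linarith only [this]
  have r2 : m * N ^ 2 ≤ q * d := by
    have : m * N ^ 2 / q ≤ d := by linarith only [hdr, p1, p2, p3, p4, p5, p6, p7]
    rw [div_le_iff₀ hq0] at this
    linarith only [this]
  have r3 : T + N * (r + 1) ≤ κ / 2 * d := by
    have : 2 * (T + N * (r + 1)) / κ ≤ d := by linarith only [hdr, p1, p2, p3, p4, p5, p6, p7]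
    rw [div_le_iff₀ hκ] at this
    linarith only [this]
  have r4 : 3 * T ≤ d / (12 * L) := by
    rw [le_div_iff₀ (by positivity)]
    linarith only [hdr, p1, p2, p3, p4, p5, p6, p7]
  have r5 : 4 * T + 2 ≤ d / (24 * L) := by
    rw [le_div_iff₀ (by positivity)]
    linarith only [hdr, p1, p2, p3, p4, p5, p6, p7]
  have r6 : 4 * T + 2 ≤ δe / 2 * d := by
    have h1 : (4 * T + 2) * (2 / δe) ≤ d := by linarith only [hdr, p1, p2, p3, p4, p5, p6, p7]
    rw [← mul_div_assoc, div_le_iff₀ hδe] at h1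
    linarith only [h1]
  have r7 : C + 3 * T ≤ d / (L * Z) := by
    rw [le_div_iff₀ hLZ0]
    linarith only [hdr, p1, p2, p3, p4, p5, p6, p7]
  obtain ⟨w0, u1, u2, u3, u4⟩ := one_type (m := m) (f := f) (D := (d : ℝ)) hm3 hf0
    (by rw [← hN]; exact r1) hd0
  obtain ⟨wq, v1, v2, v3, v4⟩ := one_type (m := m) (f := q) (D := (d : ℝ)) hm3 hq0
    (by rw [← hN]; exact r2) hd0
  rw [← hT] at u3 u4 v3 v4
  have hm6 : 1 / (m : ℝ) ≤ 1 / (6 * (L * Z)) := by
    apply one_div_le_one_div_of_le (by positivity)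
    linarith only [hmr]
  have t3 : T * (w0 + 3 * wq) = T * w0 + 3 * (T * wq) := by ring
  have t2 : T * (w0 + 2 * wq) = T * w0 + 2 * (T * wq) := by ring
  -- the total number
  have s3 : T * (w0 + 3 * wq) ≤ (1 + 1 / m) * ((1 - (2 * C + 1) / (L * Z)) * d) := by
    have h2 : (1 + 1 / (m : ℝ)) * ((1 - (2 * C + 1) / (L * Z)) * d) =
      (1 + 1 / m) * (f * d) + 3 * ((1 + 1 / m) * (q * d)) := by rw [← hsum3]; ring
    rw [t3, h2]
    linarith only [u3, v3]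
  have s3' : T * (w0 + 3 * wq) ≤ d - (2 * C + 1) / (L * Z) * d + 1 / (6 * (L * Z)) * d := by
    refine s3.trans ?_
    have h1 : (1 + 1 / (m : ℝ)) * ((1 - (2 * C + 1) / (L * Z)) * d) =
      d - (2 * C + 1) / (L * Z) * d + 1 / m * ((1 - (2 * C + 1) / (L * Z)) * d) := by ring
    rw [h1]
    have h2 : 0 ≤ (2 * C + 1) / (L * Z) := by positivity
    have h3 : (1 - (2 * C + 1) / (L * Z)) * d ≤ 1 * d :=
      mul_le_mul_of_nonneg_right (by linarith only [h2]) hd0.le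
    have h4 : 1 / (m : ℝ) * ((1 - (2 * C + 1) / (L * Z)) * d) ≤ 1 / m * (1 * d) :=
      mul_le_mul_of_nonneg_left h3 (by positivity)
    have h5 : 1 / (m : ℝ) * (1 * d) ≤ 1 / (6 * (L * Z)) * (1 * d) :=
      mul_le_mul_of_nonneg_right hm6 (by linarith only [hd0])
    linarith only [h4, h5]
  have s4 : (1 - (2 * C + 1) / (L * Z)) * d - 4 * T ≤ T * (w0 + 3 * wq) := by
    have h2 : (1 - (2 * C + 1) / (L * Z)) * d = f * d + 3 * (q * d) := by rw [← hsum3]; ring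
    rw [t3, h2]
    linarith only [u4, v4]
  have hCd : (2 * C + 1) / (L * Z) * d = 2 * (C * (d / (L * Z))) + d / (L * Z) := by
    ring
  have hCd1 : 1 / (6 * (L * Z)) * d = d / (L * Z) / 6 := by
    ring
  have hD : 0 < d / (L * Z) := by positivity
  have hCD : 0 ≤ C * (d / (L * Z)) := by positivity
  have hDC : d / (L * Z) ≤ C * (d / (L * Z)) := by
    have := mul_le_mul_of_nonneg_right hC1 hD.le
    linarith only [this]
  rw [hCd, hCd1] at s3'
  have s4' : d - (2 * (C * (d / (L * Z))) + d / (L * Z)) - 4 * T ≤ T * (w0 + 3 * wq) := by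
    rw [← hCd]
    linarith only [s4]
  have hle : (2 * m + 1) * (m * (w0 + 3 * wq)) ≤ d + 2 := by
    have h1 : (((2 * m + 1) * (m * (w0 + 3 * wq)) : ℕ) : ℝ) ≤ ((d + 2 : ℕ) : ℝ) := by
      push_cast
      have h2 : (2 * (m : ℝ) + 1) * (m * (w0 + 3 * wq)) = T * (w0 + 3 * wq) := by
        rw [hT]; ring
      rw [h2]
      linarith only [s3', hD, hCD]
    exact_mod_cast h1
  obtain ⟨W1, hW1⟩ := Nat.exists_eq_add_of_le hle
  have hW1r : (W1 : ℝ) = d + 2 - T * (w0 + 3 * wq) := by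
    have h1 : ((d + 2 : ℕ) : ℝ) = (((2 * m + 1) * (m * (w0 + 3 * wq)) + W1 : ℕ) : ℝ) := by
      rw [hW1]
    push_cast at h1
    rw [hT]
    linarith only [h1]
  refine ⟨w0, wq, W1, u1, v1, u2, v2, ?_, ?_, hW1.symm, ?_, ?_, ?_, ?_, ?_⟩
  · -- w0 + 2 wq upper
    rw [← hT, ← hL]
    have h1 : T * (w0 + 2 * wq) ≤ (1 + 1 / m) * ((1 - 2 / (3 * L) - 1 / (L * Z)) * d) := by
      have h2 : (1 + 1 / (m : ℝ)) * ((1 - 2 / (3 * L) - 1 / (L * Z)) * d) =
        (1 + 1 / m) * (f * d) + 2 * ((1 + 1 / m) * (q * d)) := by rw [← hsum2]; ring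
      rw [t2, h2]
      linarith only [u3, v3]
    refine h1.trans ?_
    have h2 : 1 / (m : ℝ) ≤ 1 / (6 * L) := hm6.trans (one_div_le_one_div_of_le (by positivity)
      (by nlinarith only [hL0, hZ72]))
    have h3 : (1 + 1 / (m : ℝ)) * (1 - 2 / (3 * L) - 1 / (L * Z)) ≤ 1 - 1 / (2 * L) := by
      have h4 : 0 ≤ 1 / (L * Z) := by positivity
      have h5 : 0 ≤ 2 / (3 * L) := by positivity
      have h6 : 0 ≤ 1 / (m : ℝ) := by positivity
      have h7 : 1 / (2 * L) = 2 / (3 * L) - 1 / (6 * L) := by field_simp; ring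
      rw [h7]
      have h8 : 1 / (m : ℝ) * (1 - 2 / (3 * L) - 1 / (L * Z)) ≤ 1 / m * 1 :=
        mul_le_mul_of_nonneg_left (by linarith only [h4, h5]) h6
      linarith only [h8, h2, h4]
    calc (1 + 1 / (m : ℝ)) * ((1 - 2 / (3 * L) - 1 / (L * Z)) * d) =
        ((1 + 1 / (m : ℝ)) * (1 - 2 / (3 * L) - 1 / (L * Z))) * d := by ring
      _ ≤ _ := mul_le_mul_of_nonneg_right h3 hd0.le
  · -- w0 + 2 wq lower
    rw [← hT, ← hL]
    have h1 : (1 - 2 / (3 * L) - 1 / (L * Z)) * d - 3 * T ≤ T * (w0 + 2 * wq) := by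
      have h2 : (1 - 2 / (3 * L) - 1 / (L * Z)) * d = f * d + 2 * (q * d) := by
        rw [← hsum2]; ring
      rw [t2, h2]
      linarith only [u4, v4]
    have h2 : (1 - 2 / (3 * L) - 1 / (L * Z)) * d = d - 2 / (3 * L) * d - 1 / (L * Z) * d := by
      ring
    have h3 : 1 / (L * Z) * d ≤ 1 / (72 * L) * d := mul_le_mul_of_nonneg_right hLZs hd0.le
    have h4 : (1 - 1 / L) * d = d - 2 / (3 * L) * d - 4 * (d / (12 * L)) := by
      field_simp; ring
    have h5 : 1 / (72 * L) * d = d / (12 * L) / 6 := by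
      field_simp; ring
    have h6 : 0 ≤ d / (12 * L) := by positivity
    linarith only [h1, h2, h3, h4, h5, h6, r4]
  · -- W1 ≤ d / (12 L)
    rw [← hL, hW1r]
    have h1 : (2 * C + 1) / (L * Z) * d ≤ d / (24 * L) := by
      rw [div_mul_eq_mul_div, div_le_div_iff₀ hLZ0 (by positivity)]
      have h2 : 24 * (2 * C + 1) * (d * L) ≤ Z * (d * L) :=
        mul_le_mul_of_nonneg_right hS2 (by positivity)
      linarith only [h2]
    have h2 : d / (12 * L) = d / (24 * L) + d / (24 * L) := by field_simp; ring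
    rw [hCd] at h1
    linarith only [h1, h2, s4', r5]
  · -- W1 ≤ δe d
    rw [hW1r]
    have h1 : (2 * C + 1) / (L * Z) * d ≤ δe / 2 * d := by
      apply mul_le_mul_of_nonneg_right _ hd0.le
      rw [div_le_iff₀ hLZ0]
      have h2 : δe / 2 * Z * 1 ≤ δe / 2 * Z * L :=
        mul_le_mul_of_nonneg_left (by linarith only [hL7]) (by positivity)
      linarith only [h2, hS1]
    rw [hCd] at h1
    linarith only [h1, s4', r6]
  · -- lower bound for W1
    rw [← hC, ← hL, ← hZ, ← hN, hW1r]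
    have h1 : 8 * (d : ℝ) / N ≤ 2 / 3 * (d / (L * Z)) := by
      rw [div_mul_div_comm, div_le_div_iff₀ hN0 (by positivity)]
      have h2 : 6 * L * Z * (8 * d) ≤ m * (8 * d) :=
        mul_le_mul_of_nonneg_right hmr (by positivity)
      have h3 : 0 ≤ (m : ℝ) * d := by positivity
      rw [hN]
      linarith only [h2, h3, hd0]
    have h2 : C * (8 * (d : ℝ) / N) ≤ C * (2 / 3 * (d / (L * Z))) :=
      mul_le_mul_of_nonneg_left h1 (by linarith only [hC1])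
    have h4 : C * (d / (L * Z) + 8 * (d : ℝ) / N + 1) =
      C * (d / (L * Z)) + C * (8 * (d : ℝ) / N) + C := by ring
    have h5 : C * (2 / 3 * (d / (L * Z))) = 2 / 3 * (C * (d / (L * Z))) := by ring
    rw [h4]
    linarith only [h2, h5, s3', hD, hCD, hDC, r7, hT0]
  · -- total + 3 T
    rw [← hT]
    linarith only [s3', hCD, hD, hDC, r7, hC1]
  · -- w0
    rw [← hT, ← hN]
    have h1 : (1 - 3 / L) * d ≤ f * d := mul_le_mul_of_nonneg_right hflow hd0.le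
    have h2 : 3 / L * d ≤ κ / 2 * d := mul_le_mul_of_nonneg_right h3κ hd0.le
    linarith only [h1, h2, u4, r3]

/-- equipartition -/
theorem equi (n : ℕ) (β : Type) [Fintype β] [Nonempty β] [DecidableEq β] : ∃ f : Fin n → β, ∀ z,
    (n : ℝ) ≤ Fintype.card β * (((Finset.univ.filter (fun s => f s = z)).card : ℝ) + 1) ∧
    Fintype.card β * ((Finset.univ.filter (fun s => f s = z)).card : ℝ) ≤
      n + Fintype.card β := by
  classical
  obtain ⟨q, hq⟩ : ∃ q : ℕ, q = Fintype.card β := ⟨_, rfl⟩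
  have hq0 : 0 < q := by rw [hq]; exact Fintype.card_pos
  obtain ⟨φ⟩ : Nonempty (Fin q ≃ β) := ⟨(Fintype.equivFinOfCardEq hq.symm).symm⟩
  refine ⟨fun s => φ ⟨s.val % q, Nat.mod_lt _ hq0⟩, fun z => ?_⟩
  have hcard : (Finset.univ.filter (fun s : Fin n =>
      φ ⟨s.val % q, Nat.mod_lt _ hq0⟩ = z)).card = Nat.count (· ≡ (φ.symm z).val [MOD q]) n := by
    rw [Nat.count_eq_card_filter_range]
    refine Finset.card_bij (fun s _ => s.val) ?_ ?_ ?_
    · intro s hs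
      rw [Finset.mem_filter] at hs
      rw [Finset.mem_filter, Finset.mem_range]
      refine ⟨s.2, ?_⟩
      have h1 := congrArg φ.symm hs.2
      rw [Equiv.symm_apply_apply] at h1
      have h2 := congrArg Fin.val h1
      simp only at h2
      unfold Nat.ModEq
      rw [h2, Nat.mod_eq_of_lt (φ.symm z).2]
    · intro s _ s' _ h
      exact Fin.ext h
    · intro b hb
      rw [Finset.mem_filter, Finset.mem_range] at hb
      refine ⟨⟨b, hb.1⟩, ?_, rfl⟩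
      rw [Finset.mem_filter]
      refine ⟨Finset.mem_univ _, ?_⟩
      have h2 := hb.2
      unfold Nat.ModEq at h2
      rw [Nat.mod_eq_of_lt (φ.symm z).2] at h2
      have h3 : (⟨b % q, Nat.mod_lt _ hq0⟩ : Fin q) = φ.symm z := Fin.ext h2
      rw [h3, Equiv.apply_symm_apply]
  rw [hcard, ← hq, Nat.count_modEq_card _ hq0]
  have h1 := Nat.div_add_mod n q
  have h2 := Nat.mod_lt n hq0
  have h3 : n ≤ q * (n / q + 1) := by
    rw [Nat.mul_add]; omega
  have h4 : q * (n / q) ≤ n := by omega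
  have h3r : (n : ℝ) ≤ q * ((n / q : ℕ) + 1) := by exact_mod_cast h3
  have h4r : (q : ℝ) * (n / q : ℕ) ≤ n := by exact_mod_cast h4
  have hqr : (0 : ℝ) ≤ q := Nat.cast_nonneg _
  split_ifs with h
  · push_cast at *
    constructor
    · nlinarith
    · nlinarith
  · push_cast at *
    constructor
    · linarith
    · linarith

end Pool.Agent.Work.MP_db9399_lh.helper99
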