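import Pool.Agent.Work.MP_db9399_bg.Base
import Pool.Agent.Work.MP_db9399_lh.Interface
import Pool.Agent.Work.MP_db9399_lc_helper99.NRM
import Pool.Agent.Work.MP_db9399_lh_helper99.NUM

/-! THEOREM LCH, block NRM: near-regular graphs, from all the other blocks. -/

set_option autoImplicit false

namespace Pool.Agent.Work.MP_db9399_lh.helper99

open Finset Classical
open Pool.Agent.Work.MP_db9399_all (nb)
open Pool.Agent.Work.MP_db9399_px (LWalk hit ee)
open Pool.Agent.Work.MP_db9399_dn (NB IsMat Tot)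
open Pool.Agent.Work.MP_db9399_bg (den cl LabP Good PN IsPat en enP REnv Spr Lbl bx c3f c3 HPre Ix
  mem_cl mem_bx card_Lbl)
open Pool.Agent.Work.MP_db9399_lc (BL)
open Pool.Agent.Work.MP_db9399_lc.helper99 (BL.mono exists_colours)
open Pool.Agent.Work.MP_db9399_lh

universe u

section mono
variable {V : Type u} [Fintype V] {l m r K K1 S : ℕ}

theorem oneRound_mono {g δ δ' : ℝ} {G : SimpleGraph V} {d : ℕ} {lab : V → Lh l m r K K1 S}
    (h : OneRound g δ G d lab) (hd : δ' ≤ δ) : OneRound g δ' G d lab := by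
  intro τ i F a hh U J lg Oi hτ hR
  exact h τ i F a hh U J lg Oi hτ (hR.mono (by unfold qr pr; positivity) hd)

theorem uPar_mono {k w W1 : ℕ} {δ δ' : ℝ} {G : SimpleGraph V} {d : ℕ} {UH : Finset V}
    {c0 tu : V → Fin k} {lab : V → Lh l m r K K1 S} {e : Ix m w → Fin k}
    {τ : Fin w → Option (ZMod 3)} {e1 : Fin W1 → Fin k}
    {sy : Fin W1 → Fin (K1 + 1) × Fin (K1 + 1)} {tp : V → ZMod 3} {c : V → Fin k}
    {wv : V → Fin k → V}
    (h : UPar G d δ UH c0 tu lab e τ e1 sy tp c wv) (hd : δ ≤ δ') :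
    UPar G d δ' UH c0 tu lab e τ e1 sy tp c wv where
  adj := h.adj
  inj := h.inj
  inj2 := h.inj2
  cel := h.cel
  spl := h.spl
  sat := h.sat
  spr v b := (h.spr v b).trans (mul_le_mul_of_nonneg_right hd (Nat.cast_nonneg _))

end mono

theorem card_filter_sum' {A B : Type} [Fintype A] [Fintype B] (p : A ⊕ B → Prop) :
    (univ.filter p).card = (univ.filter (fun a => p (Sum.inl a))).card +
      (univ.filter (fun b => p (Sum.inr b))).card := by
  simp only [Finset.card_filter, Fintype.sum_sum_type]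

theorem card_filter_equiv' {A B : Type} [Fintype A] [Fintype B] (Φ : A ≃ B) (p : B → Prop) :
    (univ.filter (fun a => p (Φ a))).card = (univ.filter p).card := by
  simp only [Finset.card_filter]
  exact Equiv.sum_comp Φ (fun x => if p x then 1 else 0)

theorem card_filter_sum {A B : Type} [Fintype A] [Fintype B] (p : A ⊕ B → Prop)
    [DecidablePred p] [DecidablePred (fun a => p (Sum.inl a))]
    [DecidablePred (fun b => p (Sum.inr b))] :
    (univ.filter p).card = (univ.filter (fun a => p (Sum.inl a))).card +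
      (univ.filter (fun b => p (Sum.inr b))).card := by
  have h := card_filter_sum' p
  convert h

theorem card_filter_equiv {A B : Type} [Fintype A] [Fintype B] (Φ : A ≃ B) (p : B → Prop)
    [DecidablePred p] [DecidablePred (fun a => p (Φ a))] :
    (univ.filter (fun a => p (Φ a))).card = (univ.filter p).card := by
  have h := card_filter_equiv' Φ p
  convert h

/-- types, parts of the missed vertices and palettes of the rounds -/
theorem exists_types (m w0 wq r : ℕ) :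
    ∃ (τ : Fin (w0 + 3 * wq) → Option (ZMod 3)) (ρ : Fin (w0 + 3 * wq) → ZMod 3)
      (pal : Fin m × Fin (w0 + 3 * wq) → Fin (r + 1)),
      (univ.filter (fun s => τ s = none)).card = w0 ∧
      (∀ j, (univ.filter (fun s => τ s = some j)).card = wq) ∧
      (∀ s, τ s ≠ some (ρ s)) ∧
      (∀ i, 3 * ((univ.filter (fun s => ρ s = i)).card : ℝ) ≤ w0 + 3 * wq + 3) ∧
      ∀ s, (m : ℝ) * w0 ≤ (r + 1) * (((univ.filter (fun y : Fin m × Fin (w0 + 3 * wq) =>
        pal y = s ∧ τ y.2 = none)).card : ℝ) + 1) := by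
  obtain ⟨Φ⟩ : Nonempty (Fin (w0 + 3 * wq) ≃ Fin w0 ⊕ (ZMod 3 × Fin wq)) :=
    ⟨Fintype.equivOfCardEq (by
      rw [Fintype.card_fin, Fintype.card_sum, Fintype.card_fin, Fintype.card_prod, ZMod.card,
        Fintype.card_fin])⟩
  obtain ⟨f0, hf0⟩ := equi w0 (ZMod 3)
  obtain ⟨fp, hfp⟩ := equi (m * w0) (Fin (r + 1))
  refine ⟨fun s => Sum.elim (fun _ => none) (fun p => some p.1) (Φ s),
    fun s => Sum.elim f0 (fun p => p.1 + 1) (Φ s),
    fun y => Sum.elim (fun i => fp (finProdFinEquiv (y.1, i))) (fun _ => 0) (Φ y.2),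
    ?_, ?_, ?_, ?_, ?_⟩
  · beta_reduce
    rw [card_filter_equiv Φ (fun x => Sum.elim (fun _ => (none : Option (ZMod 3)))
      (fun p : ZMod 3 × Fin wq => some p.1) x = none), card_filter_sum]
    simp
  · intro j
    beta_reduce
    rw [card_filter_equiv Φ (fun x => Sum.elim (fun _ => (none : Option (ZMod 3)))
      (fun p : ZMod 3 × Fin wq => some p.1) x = some j), card_filter_sum]
    have h1 : univ.filter (fun b : ZMod 3 × Fin wq => Sum.elim
        (fun _ : Fin w0 => (none : Option (ZMod 3))) (fun p : ZMod 3 × Fin wq => some p.1)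
          (Sum.inr b) = some j) = {j} ×ˢ univ := by
      ext ⟨a, b⟩
      simp [eq_comm]
    rw [h1, card_product, card_singleton, card_univ, Fintype.card_fin]
    simp
  · intro s
    simp only
    cases Φ s with
    | inl a => simp
    | inr b =>
      simp only [Sum.elim_inr, ne_eq, Option.some.injEq]
      intro h
      have h2 : (1 : ZMod 3) = 0 := by
        have := congrArg (fun z => z - b.1) h
        simp only [sub_self, add_sub_cancel_left] at this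
        exact this.symm
      exact absurd h2 (by decide)
  · intro i
    beta_reduce
    rw [card_filter_equiv Φ (fun x => Sum.elim f0 (fun p : ZMod 3 × Fin wq => p.1 + 1) x = i),
      card_filter_sum]
    have h1 : univ.filter (fun b : ZMod 3 × Fin wq => Sum.elim f0
        (fun p : ZMod 3 × Fin wq => p.1 + 1) (Sum.inr b) = i) = {i - 1} ×ˢ univ := by
      ext ⟨a, b⟩
      simp only [Sum.elim_inr, mem_filter, mem_univ, true_and, mem_product, mem_singleton,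
        and_true]
      exact eq_sub_iff_add_eq.symm
    rw [h1, card_product, card_singleton, card_univ, Fintype.card_fin]
    have h2 := (hf0 i).2
    simp only [Sum.elim_inl]
    rw [ZMod.card] at h2
    push_cast at h2 ⊢
    linarith
  · intro s
    have h1 := (hfp s).1
    rw [Fintype.card_fin] at h1
    push_cast at h1
    refine h1.trans (mul_le_mul_of_nonneg_left ?_ (by positivity))
    have h2 : (univ.filter (fun t => fp t = s)).card ≤
        (univ.filter (fun y : Fin m × Fin (w0 + 3 * wq) =>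
          Sum.elim (fun i => fp (finProdFinEquiv (y.1, i))) (fun _ => 0) (Φ y.2) = s ∧
          Sum.elim (fun _ => (none : Option (ZMod 3))) (fun p : ZMod 3 × Fin wq => some p.1)
            (Φ y.2) = none)).card := by
      refine Finset.card_le_card_of_injOn (fun t => ((finProdFinEquiv.symm t).1,
        Φ.symm (Sum.inl (finProdFinEquiv.symm t).2))) ?_ ?_
      · intro t ht
        simp only [Finset.coe_filter, Finset.mem_univ, true_and, Set.mem_ofPred_eq] at ht ⊢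
        simp only [Equiv.apply_symm_apply, Sum.elim_inl, Prod.mk.eta, and_true]
        exact ht
      · intro t _ t' _ h
        simp only [Prod.mk.injEq, EmbeddingLike.apply_eq_iff_eq, Sum.inl.injEq] at h
        exact finProdFinEquiv.symm.injective (Prod.ext h.1 h.2)
    have h3 : ((univ.filter (fun t => fp t = s)).card : ℝ) ≤
        ((univ.filter (fun y : Fin m × Fin (w0 + 3 * wq) =>
          Sum.elim (fun i => fp (finProdFinEquiv (y.1, i))) (fun _ => 0) (Φ y.2) = s ∧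
          Sum.elim (fun _ => (none : Option (ZMod 3))) (fun p : ZMod 3 × Fin wq => some p.1)
            (Φ y.2) = none)).card : ℝ) := by exact_mod_cast h2
    linarith

/-- a palette without two given colours -/
theorem exists_tp {m w k : ℕ} (e : Ix m w → Fin k) (he : Function.Injective e)
    (τ : Fin w → Option (ZMod 3)) (b1 b2 : Fin k) :
    ∃ i : ZMod 3, ∀ x, τ x.2.2 = some i → e x ≠ b1 ∧ e x ≠ b2 := by
  by_contra hcon
  push Not at hcon
  have h1 : (univ : Finset (ZMod 3)) ⊆ ({b1, b2} : Finset (Fin k)).biUnion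
      (fun b => univ.filter (fun i => ∃ x, e x = b ∧ τ x.2.2 = some i)) := by
    intro i _
    obtain ⟨x, hx1, hx2⟩ := hcon i
    rw [mem_biUnion]
    by_cases h : e x = b1
    · exact ⟨b1, by simp, by rw [mem_filter]; exact ⟨mem_univ _, x, h, hx1⟩⟩
    · exact ⟨b2, by simp, by rw [mem_filter]; exact ⟨mem_univ _, x, hx2 h, hx1⟩⟩
  have h2 := card_le_card h1
  rw [card_univ, ZMod.card] at h2
  have h3 : (({b1, b2} : Finset (Fin k)).biUnion
      (fun b => univ.filter (fun i => ∃ x, e x = b ∧ τ x.2.2 = some i))).card ≤ 2 * 1 := by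
    refine (card_biUnion_le_card_mul _ _ 1 ?_).trans (Nat.mul_le_mul_right _ card_le_two)
    intro b _
    rw [card_le_one]
    intro i hi j hj
    rw [mem_filter] at hi hj
    obtain ⟨-, x, hx, hx'⟩ := hi
    obtain ⟨-, y, hy, hy'⟩ := hj
    have hxy := he (hx.trans hy.symm)
    rw [hxy, hy'] at hx'
    exact (Option.some.inj hx').symm
  omega

theorem stmt_NRM (hLAB : MP_db9399_bg.Stmt_LAB.{u}) (hESX : Stmt_ESX.{u})
    (hRND1 : Stmt_RND1.{u}) (hCAPE : Stmt_CAPE.{u}) (hNDEC : Stmt_NDEC.{u})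
    (hVCOL : Stmt_VCOL.{u}) (hUPAR : Stmt_UPAR.{u}) (hLEFT : Stmt_LEFT.{u})
    (hP0ALL : Stmt_P0ALL.{u}) (hPEALL : Stmt_PEALL.{u}) (hASM : Stmt_ASM.{u}) :
    Stmt_NRM.{u} := by
  intro g hg hg1
  -- constants
  obtain ⟨κ, hκ, hκ1, hV⟩ := hVCOL g hg hg1
  obtain ⟨l1, hR⟩ := hRND1 g hg hg1
  obtain ⟨l2, hC⟩ := hCAPE g hg hg1
  obtain ⟨l3, hl3⟩ := exists_nat_ge (6 / κ)
  obtain ⟨l, hl⟩ : ∃ l : ℕ, l = l1 + l2 + l3 + 20 := ⟨_, rfl⟩
  obtain ⟨δC, hδC, hC'⟩ := hC l (by omega)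
  have hl20 : 20 ≤ l := by omega
  have hlr : 6 / κ ≤ 2 * (l : ℝ) + 1 := by
    have : (l3 : ℝ) ≤ l := by exact_mod_cast (by omega : l3 ≤ l)
    have h0 : (0 : ℝ) ≤ l := Nat.cast_nonneg _
    linarith
  obtain ⟨cE, hcE, hcE1, hS⟩ := hESX g l hg (by omega)
  obtain ⟨K0, δe, hδe, hK0⟩ := hPEALL g δC cE l hg hg1 hδC hcE (by omega)
  obtain ⟨K1, hK1⟩ : ∃ K1 : ℕ, K1 = K0 + 4 := ⟨_, rfl⟩
  obtain ⟨m0, hm0⟩ := hK0 K1 (by omega)
  obtain ⟨ν, hν⟩ : ∃ ν : ℕ, ν = 3 * (K1 + 1) ^ 2 := ⟨_, rfl⟩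
  obtain ⟨S0, hS0⟩ := exists_nat_ge ((2 * ((K1 : ℝ) + 1) ^ 2 + 1) * (2 / δe))
  obtain ⟨S, hSS⟩ : ∃ S : ℕ, S = ν + S0 + 24 * (2 * (K1 + 1) ^ 2 + 1) := ⟨_, rfl⟩
  have hS1 : 2 * ((K1 : ℝ) + 1) ^ 2 + 1 ≤ δe / 2 * (S + 1) := by
    have h1 : (S0 : ℝ) ≤ S := by exact_mod_cast (by omega : S0 ≤ S)
    have h2 : (2 * ((K1 : ℝ) + 1) ^ 2 + 1) * (2 / δe) ≤ S := hS0.trans h1
    have h3 : δe / 2 * ((2 * ((K1 : ℝ) + 1) ^ 2 + 1) * (2 / δe)) ≤ δe / 2 * S :=
      mul_le_mul_of_nonneg_left h2 (by positivity)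
    have h4 : δe / 2 * ((2 * ((K1 : ℝ) + 1) ^ 2 + 1) * (2 / δe)) = 2 * ((K1 : ℝ) + 1) ^ 2 + 1 := by
      field_simp
    linarith
  have hS2 : 24 * (2 * ((K1 : ℝ) + 1) ^ 2 + 1) ≤ S + 1 := by
    have h1 : 24 * (2 * (K1 + 1) ^ 2 + 1) ≤ S + 1 := by omega
    exact_mod_cast h1
  obtain ⟨δR, hδR, hR'⟩ := hR l S (by omega)
  obtain ⟨δ, hδ⟩ : ∃ δ : ℝ, δ = min δR (1 / 10) := ⟨_, rfl⟩
  have hδ0 : 0 < δ := by
    rw [hδ]; exact lt_min hδR (by norm_num)
  have hδd1 : δ ≤ δR := by rw [hδ]; exact min_le_left _ _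
  have hδt : δ ≤ 1 / 10 := by rw [hδ]; exact min_le_right _ _
  obtain ⟨q, hq⟩ := exists_nat_ge (10000 * (2 * (l : ℝ) + 1) / δ)
  obtain ⟨m, hm⟩ : ∃ m : ℕ, m = m0 + q + 6 * (2 * l + 1) * (S + 1) + 4 := ⟨_, rfl⟩
  obtain ⟨r, hr⟩ : ∃ r : ℕ, r = q + 20 * (2 * l + 1) := ⟨_, rfl⟩
  obtain ⟨K, hK⟩ : ∃ K : ℕ, K = q := ⟨_, rfl⟩
  have hqd : 10000 * (2 * (l : ℝ) + 1) ≤ δ * q := by
    rw [div_le_iff₀ hδ0] at hq
    linarith
  have hqm : 10000 * (2 * (l : ℝ) + 1) ≤ δ * (2 * m + 1) := by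
    refine hqd.trans (mul_le_mul_of_nonneg_left ?_ hδ0.le)
    exact_mod_cast (by omega : q ≤ 2 * m + 1)
  have hqr : 10000 * (2 * (l : ℝ) + 1) ≤ δ * (r + 1) := by
    refine hqd.trans (mul_le_mul_of_nonneg_left ?_ hδ0.le)
    exact_mod_cast (by omega : q ≤ r + 1)
  have hqK : 10000 * (2 * (l : ℝ) + 1) ≤ δ * (K + 1) := by
    refine hqd.trans (mul_le_mul_of_nonneg_left ?_ hδ0.le)
    exact_mod_cast (by omega : q ≤ K + 1)
  have hm1 : 1 ≤ m := by omega
  -- small constants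
  obtain ⟨s1, c1, x1, n1, hs1, hc1, hx1, H1⟩ := hR' m r K K1 hm1
  obtain ⟨s2, c2, x2, n2, hs2, hc2, hx2, H2⟩ := hC' m r K K1 S hm1
  obtain ⟨s3, c3, x3, n3, hs3, hc3, hx3, H3⟩ := hS m r K K1 S hm1
  obtain ⟨s4, x4, n4, hs4, hx4, H4⟩ := hNDEC g l m r K K1 S ν hg (by omega) (by omega) (by omega)
  obtain ⟨s5, x5, n5, hs5, hx5, H5⟩ := hV l m r K K1 S
  obtain ⟨s6, x6, δ3, n6, hs6, hx6, hδ3, H6⟩ := hP0ALL g δ l m r K K1 S ν hg hδ0 hδt (by omega)
    (by omega) hqm hqr hqK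
  obtain ⟨s7, x7, δ4, n7, hs7, hx7, hδ4, H7⟩ := hm0 m r K S (by omega)
  obtain ⟨s8, x8, n8, hs8, hx8, H8⟩ := hUPAR l m r K K1 S (min δ3 δ4) (lt_min hδ3 hδ4) hl20
    (by omega) (by omega) (by omega)
  obtain ⟨s9, x9, n9, hs9, hx9, H9⟩ := hLEFT l m r K K1 S ν (by omega) (by omega) (by omega)
  obtain ⟨n10, H10⟩ := numbers (κ := κ) (δe := δe) (f := f0 l S ν) (q := fq l S ν) (l := l)
    (m := m) (r := r) (S := S) (ν := ν) (K1 := K1) hκ hδe hlr (by omega) hν rfl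
    rfl (by omega) hS1 hS2 (by omega)
  obtain ⟨s, hs⟩ : ∃ s : ℝ, s = min (min (min s1 s2) (min s3 s4)) (min (min s5 s6)
    (min (min s7 s8) s9)) := ⟨_, rfl⟩
  obtain ⟨cc, hcc⟩ : ∃ cc : ℝ, cc = min (min c1 c2) c3 := ⟨_, rfl⟩
  obtain ⟨x, hx⟩ : ∃ x : ℝ, x = min (min (min x1 x2) (min x3 x4)) (min (min x5 x6)
    (min (min x7 x8) x9)) := ⟨_, rfl⟩
  have hs0 : 0 < s := by
    rw [hs]
    exact lt_min (lt_min (lt_min hs1 hs2) (lt_min hs3 hs4)) (lt_min (lt_min hs5 hs6)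
      (lt_min (lt_min hs7 hs8) hs9))
  have hcc0 : 0 < cc := by
    rw [hcc]
    exact lt_min (lt_min hc1 hc2) hc3
  have hx0 : 0 < x := by
    rw [hx]
    exact lt_min (lt_min (lt_min hx1 hx2) (lt_min hx3 hx4)) (lt_min (lt_min hx5 hx6)
      (lt_min (lt_min hx7 hx8) hx9))
  have hsle : s ≤ s1 ∧ s ≤ s2 ∧ s ≤ s3 ∧ s ≤ s4 ∧ s ≤ s5 ∧ s ≤ s6 ∧ s ≤ s7 ∧ s ≤ s8 ∧ s ≤ s9 := by
    rw [hs]
    simp only [min_le_iff, le_refl, true_or, or_true, and_true]
  have hcle : cc ≤ c1 ∧ cc ≤ c2 ∧ cc ≤ c3 := by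
    rw [hcc]
    simp only [min_le_iff, le_refl, true_or, or_true, and_true]
  have hxle : x ≤ x1 ∧ x ≤ x2 ∧ x ≤ x3 ∧ x ≤ x4 ∧ x ≤ x5 ∧ x ≤ x6 ∧ x ≤ x7 ∧ x ≤ x8 ∧ x ≤ x9 := by
    rw [hx]
    simp only [min_le_iff, le_refl, true_or, or_true, and_true]
  obtain ⟨a1, a2, a3, a4, a5, a6, a7, a8, a9⟩ := hsle
  obtain ⟨b1, b2, b3⟩ := hcle
  obtain ⟨y1, y2, y3, y4, y5, y6, y7, y8, y9⟩ := hxle
  obtain ⟨n11, H11⟩ := hLAB (Lh l m r K K1 S) s cc hs0 hcc0
  refine ⟨x, n1 + n2 + n3 + n4 + n5 + n6 + n7 + n8 + n9 + n10 + n11, hx0, ?_⟩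
  intro V _ G d k UH c0 EH tu hd hk hBG hH
  obtain ⟨lab, hlab⟩ := H11 G d (by omega) hBG.deg
  obtain ⟨w0, wq, W1, w_1, w_2, w_3, w_4, w_5, w_6, w_7, w_8, w_9, w_10, w_11, w_12⟩ :=
    H10 d (by omega)
  obtain ⟨w, hw⟩ : ∃ w : ℕ, w = w0 + 3 * wq := ⟨_, rfl⟩
  -- colours
  have hcardI : Fintype.card (Ix m w) = (2 * m + 1) * (m * w) := by
    rw [Fintype.card_prod, Fintype.card_prod, ZMod.card, Fintype.card_fin, Fintype.card_fin]
  obtain ⟨e, e1, he, he1, hee, -⟩ := exists_colours (k := k) (α := Ix m w) (β := Fin W1) ∅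
    (by simp) (by rw [hcardI, Fintype.card_fin, hw, w_7]; exact hk)
  have hwr : (w : ℝ) = w0 + 3 * wq := by rw [hw]; push_cast; ring
  have hN0 : (0 : ℝ) ≤ (2 * (m : ℝ) + 1) * m := by positivity
  have hmw_le : (2 * (m : ℝ) + 1) * m * w ≤ d := by
    rw [hwr]
    linarith
  obtain ⟨τ, ρ, pal, hτ0, hτq, hτρ, hρ, hpal⟩ := exists_types m w0 wq r
  subst hw
  obtain ⟨sy, hsy⟩ := equi W1 (Fin (K1 + 1) × Fin (K1 + 1))
  have htp := fun u : V => exists_tp e he τ (c0 u) (tu u)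
  choose tp htp using htp
  have hρ' : ∀ i, (3 * (2 * (m : ℝ) + 1)) * (m * (univ.filter (fun s => ρ s = i)).card) ≤ d := by
    intro i
    have h1 := mul_le_mul_of_nonneg_left (hρ i) hN0
    linarith
  have hτt : ∀ t, ((m : ℝ) - 1) * (univ.filter (fun s => τ s = t)).card ≤
        (1 - 1 / (2 * m + 1)) * (ft l S ν t * d / (2 * m + 1)) := by
    intro t
    unfold ft
    cases t with
    | none =>
      rw [if_pos rfl, hτ0]
      exact w_1
    | some j =>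
      rw [if_neg (by simp), hτq]
      exact w_2
  have hτt' : ∀ t, (1 - 2 / (2 * m + 1)) * (ft l S ν t * d / (2 * m + 1)) ≤
        ((m : ℝ) - 1) * (univ.filter (fun s => τ s = t)).card := by
    intro t
    unfold ft
    cases t with
    | none =>
      rw [if_pos rfl, hτ0]
      exact w_3
    | some j =>
      rw [if_neg (by simp), hτq]
      exact w_4
  have hsy' : ∀ z, (d : ℝ) / ((2 * l + 1) * (S + 1)) + 8 * (d : ℝ) / (2 * m + 1) ≤
        (univ.filter (fun y => sy y = z)).card := by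
    intro z
    have h1 := (hsy z).1
    rw [Fintype.card_prod, Fintype.card_fin] at h1
    push_cast at h1
    have h2 := w_10.trans h1
    have h3 : 0 < ((K1 : ℝ) + 1) ^ 2 := by positivity
    have h4 : ((K1 : ℝ) + 1) ^ 2 * ((d : ℝ) / ((2 * l + 1) * (S + 1)) + 8 * (d : ℝ) / (2 * m + 1) + 1)
      ≤ ((K1 : ℝ) + 1) ^ 2 * (((univ.filter (fun y => sy y = z)).card : ℝ) + 1) := by
      rw [sq] at h2 ⊢
      exact h2
    have h5 := le_of_mul_le_mul_left h4 h3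
    linarith
  -- the blocks
  have L1 := H1 G d lab (by omega) (BL.mono hBG y1) (hlab.mono a1 b1)
  have L2 := H2 G d lab (by omega) (BL.mono hBG y2) (hlab.mono a2 b2)
  have L3 := H3 G d lab (by omega) (BL.mono hBG y3) (hlab.mono a3 b3)
  have L1' : OneRound g δ G d lab := oneRound_mono L1 hδd1
  obtain ⟨Nd, L4⟩ := H4 G d (w0 + 3 * wq) cc UH lab τ (by omega) (BL.mono hBG y4)
    (hlab.mono a4 le_rfl) hH.two hτt
  obtain ⟨c, L5⟩ := H5 G d k (w0 + 3 * wq) cc UH c0 EH tu lab e τ pal (by omega) (BL.mono hBG y5)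
    (hlab.mono a5 le_rfl) hH he (by
      intro s
      have h1 := mul_le_mul_of_nonneg_left (hpal s) (by positivity : (0 : ℝ) ≤ 2 * m + 1)
      linarith)
  obtain ⟨wv, L6⟩ := H8 G d k (w0 + 3 * wq) w0 wq W1 g cc UH c0 EH tu lab e τ e1 sy tp pal c
    (by omega) (BL.mono hBG y8) (hlab.mono a8 le_rfl) hH he he1 hee L5 hτ0 hτq w_5 w_6 w_8
  obtain ⟨Mx, O, L8⟩ := H6 G d k (w0 + 3 * wq) W1 cc UH c0 EH tu lab e τ ρ e1 sy tp pal c wv Nd
    (by omega) (BL.mono hBG y6) (hlab.mono a6 le_rfl) L1' hH he L5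
    (uPar_mono L6 (min_le_left _ _)) L4 hmw_le hτρ hρ'
  obtain ⟨Kk, L7⟩ := H9 G d (w0 + 3 * wq) W1 g cc UH lab τ sy Nd Mx (by omega) (BL.mono hBG y9)
    (hlab.mono a9 le_rfl) L4 (fun x v v' h => (L8.le x v v' h).1) hτt' hsy'
  obtain ⟨M1, O1, L9⟩ := H7 G d k (w0 + 3 * wq) W1 ν cc UH c0 EH tu lab e τ ρ e1 sy tp c wv Nd Mx
    O Kk (by omega) (BL.mono hBG y7) (hlab.mono a7 le_rfl) L2 L3 hH he1
    (uPar_mono L6 (min_le_right _ _)) L4 L8 L7 hmw_le hρ' w_9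
  obtain ⟨t, L10, L11⟩ := hASM g (min δ3 δ4) G d k (w0 + 3 * wq) W1 ν UH c0 EH tu lab e τ ρ e1 sy
    tp pal c wv Nd Mx O Kk M1 O1 (by omega) hBG.deg w_7 hH he he1 hee
    (fun u _ x hx => htp u x hx) hτρ L5 L6 L4 L8 L7 L9
  exact ⟨c, t, L10, L5.cU, L11⟩

end Pool.Agent.Work.MP_db9399_lh.helper99
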