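import Pool.Agent.Work.MP_db9399_bg.Base
import Pool.Agent.Work.MP_db9399_lh.Interface
import Pool.Agent.Work.MP_db9399_lc_helper99.VCOL

/-!
# MP_db9399, THEOREM LCH, block VCOL (helper99): the vertex colouring
-/

set_option autoImplicit false

namespace Pool.Agent.Work.MP_db9399_lh.helper99

open Finset Classical
open Pool.Agent.Work.MP_db9399_all (nb mis)
open Pool.Agent.Work.MP_db9399_px (LWalk hit ee)
open Pool.Agent.Work.MP_db9399_bg (den cl LabP HPre Lbl Ix bx den_bx mem_cl mem_nb mem_bx card_univ_zmod card_univ_fin)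
open Pool.Agent.Work.MP_db9399_lc (BL)
open Pool.Agent.Work.MP_db9399_lc.helper99.VCOL
open Pool.Agent.Work.MP_db9399_lh

universe u

/-- density of a cylinder -/
theorem den_prod_univ {T β : Type} [Fintype T] [Fintype β] [Nonempty β] (A : Finset T) :
    den (A ×ˢ (univ : Finset β)) = den A := by
  unfold den
  rw [card_product, card_univ, Fintype.card_prod]
  have h : (Fintype.card β : ℝ) ≠ 0 := by exact_mod_cast Fintype.card_ne_zero
  push_cast
  rw [mul_div_mul_right _ _ h]

/-- **VCOL** -/
theorem stmt_VCOL : Stmt_VCOL.{u} := by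
  intro g hg hg1
  obtain ⟨κX, Δ0, hκ, hκ1, hvcx⟩ :=
    Pool.Agent.Work.MP_db9399_exp.helper99.stmt_VCX.{u} (g / 3) (by positivity)
  refine ⟨κX / 2, by positivity, by linarith, ?_⟩
  intro l m r K K1 S
  set p : ℝ := 1 / ((2 * (m : ℝ) + 1) * ((r : ℝ) + 1)) with hp
  have hp0 : 0 < p := by positivity
  have hp1 : p ≤ 1 := by
    rw [hp, div_le_one (by positivity)]
    have h1 : (1 : ℝ) ≤ 2 * (m : ℝ) + 1 := by
      have : (0 : ℝ) ≤ m := Nat.cast_nonneg _
      linarith
    have h2 : (1 : ℝ) ≤ (r : ℝ) + 1 := by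
      have : (0 : ℝ) ≤ r := Nat.cast_nonneg _
      linarith
    nlinarith
  set σ : ℝ := min (p ^ 2 * g / 20) (κX * p / 4) with hσ
  have hσ0 : 0 < σ := lt_min (by positivity) (by positivity)
  refine ⟨σ, g / 20, ⌈120 / (g * p ^ 2) + 100 / p + Δ0 / p + 4 / (κX * p)⌉₊, hσ0,
    by positivity, ?_⟩
  intro V _ G d k w c1 UH c0 EH tu lab e τ pal hd hBG hLab hH he hpal
  have hdR : 120 / (g * p ^ 2) + 100 / p + Δ0 / p + 4 / (κX * p) ≤ d := by
    refine (Nat.le_ceil _).trans ?_
    exact_mod_cast hd
  have q1 : 0 < 120 / (g * p ^ 2) := by positivity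
  have q2 : 0 < 100 / p := by positivity
  have q3 : 0 ≤ (Δ0 : ℝ) / p := by positivity
  have q4 : 0 < 4 / (κX * p) := by positivity
  have d1 : 120 / (g * p ^ 2) ≤ d := by linarith
  have d2 : 100 / p ≤ d := by linarith
  have d3 : (Δ0 : ℝ) ≤ d * p := by
    have : (Δ0 : ℝ) / p ≤ d := by linarith
    rwa [div_le_iff₀ hp0] at this
  have d4 : 4 ≤ d * (κX * p) := by
    have : 4 / (κX * p) ≤ d := by linarith
    rwa [div_le_iff₀ (by positivity)] at this
  set Δ : ℕ := ⌈(p + σ) * d⌉₊ with hΔ
  have hpd0 : 0 ≤ (p + σ) * d := by positivity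
  have hΔ1 : (p + σ) * d ≤ Δ := Nat.le_ceil _
  have hΔ2 : (Δ : ℝ) ≤ (p + σ) * d + 1 := (Nat.ceil_lt_add_one hpd0).le
  set S1 : Type := ZMod (2 * m + 1) × Fin (r + 1) with hS
  set sub : V → S1 := fun v => (ce (lab v), su (lab v)) with hsub
  set P : S1 → Finset (Lh l m r K K1 S) := fun s => (bx {s.1} univ {s.2} univ univ univ) ×ˢ univ with hP
  have hden : ∀ s, den (P s) = p := by
    intro s
    simp only [hP]
    rw [den_prod_univ, den_bx, card_univ_zmod, card_univ_zmod, card_univ_fin, card_univ_fin,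
      Finset.card_singleton, Finset.card_singleton, hp]
    have h1 : (2 * (m : ℝ) + 1) ≠ 0 := by positivity
    have h2 : (2 * (l : ℝ) + 1) ≠ 0 := by positivity
    have h3 : ((r : ℝ) + 1) ≠ 0 := by positivity
    have h4 : ((K : ℝ) + 1) ≠ 0 := by positivity
    have h5 : ((K1 : ℝ) + 1) ≠ 0 := by positivity
    push_cast
    field_simp
  have hcl : ∀ v s, v ∈ cl lab (P s) ↔ sub v = s := by
    intro v s
    rw [mem_cl]
    simp only [hP, mem_product, mem_bx, Finset.mem_singleton, Finset.mem_univ, true_and, and_true, hsub]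
    constructor
    · rintro ⟨h1, h2⟩
      exact Prod.ext h1 h2
    · intro h
      rw [← h]
      exact ⟨rfl, rfl⟩
  set A : V → S1 → Finset V := fun v s => (nb G v).filter (fun w => w ∉ UH ∧ sub w = s) with hA
  have hAB : ∀ v s, A v s ⊆ nb G v ∩ cl lab (P s) := by
    intro v s w hw
    simp only [hA, mem_filter] at hw
    exact mem_inter.2 ⟨hw.1, (hcl w s).2 hw.2.2⟩
  have hBA : ∀ v s, (nb G v ∩ cl lab (P s)).card ≤ (A v s).card + 2 := by
    intro v s
    have h1 : nb G v ∩ cl lab (P s) ⊆ A v s ∪ (nb G v ∩ UH) := by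
      intro w hw
      rw [mem_inter, hcl] at hw
      rw [mem_union]
      by_cases hwU : w ∈ UH
      · exact Or.inr (mem_inter.2 ⟨hw.1, hwU⟩)
      · refine Or.inl ?_
        simp only [hA, mem_filter]
        exact ⟨hw.1, hwU, hw.2⟩
    have h2 := (card_le_card h1).trans (card_union_le _ _)
    have h3 := hH.two v
    omega
  have hdeg : ∀ v : V, ((nb G v).card : ℝ) ≤ d := fun v => by exact_mod_cast hBG.deg v
  have hBup : ∀ v s, ((nb G v ∩ cl lab (P s)).card : ℝ) ≤ (p + σ) * d := by
    intro v s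
    have h1 := (abs_le.mp (hLab.deg v (P s))).2
    rw [hden] at h1
    have h2 := mul_le_mul_of_nonneg_left (hdeg v) hp0.le
    linarith
  obtain ⟨c, hc1, hc2, hc3⟩ := hvcx G UH Δ k (fun u => {c0 u}) S1 sub
    (fun s => (univ.filter (fun y => pal y = s.2 ∧ τ y.2 = none)).image (fun y => e (s.1, y)))
    (by
      have : (Δ0 : ℝ) ≤ Δ := by nlinarith
      exact_mod_cast this)
    (by
      intro v s
      have h1 : ((A v s).card : ℝ) ≤ Δ :=
        (by exact_mod_cast card_le_card (hAB v s) :
          ((A v s).card : ℝ) ≤ (nb G v ∩ cl lab (P s)).card).trans ((hBup v s).trans hΔ1)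
      have h2 : (A v s).card ≤ Δ := by exact_mod_cast h1
      convert h2)
    (by
      intro v s
      have hlow : (p * (1 - g / 20) - σ) * d - 2 ≤ ((A v s).card : ℝ) := by
        have h1 := (abs_le.mp (hLab.deg v (P s))).1
        rw [hden] at h1
        have h2 := mul_le_mul_of_nonneg_left (hBG.low v) hp0.le
        have h3 : ((nb G v ∩ cl lab (P s)).card : ℝ) ≤ (A v s).card + 2 := by
          exact_mod_cast hBA v s
        nlinarith
      have hsps := hLab.sps v (P s)
      rw [hden] at hsps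
      have h1 := num (g := g) (p := p) (σ := σ) (ε0 := g / 20) (D := (d : ℝ))
        (a := ((A v s).card : ℝ)) (B := ((nb G v ∩ cl lab (P s)).card : ℝ))
        (E := ee G (A v s) (A v s)) (M := ((mis G (A v s)).card : ℝ)) hg hg1 hp0 hp1 hσ0.le
        (min_le_left _ _) (by positivity) le_rfl d1 d2 hlow
        (by exact_mod_cast card_le_card (hAB v s)) (hBup v s)
        ((ee_mono G (hAB v s)).trans (hsps.trans (by
          have := ee_nb hg hBG (by linarith) v
          have h2 := mul_le_mul_of_nonneg_left this (sq_nonneg p)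
          linarith))) (mis_ge G (A v s))
      have h2 : g / 3 * (Δ : ℝ) ^ 2 ≤ g / 3 * ((p + σ) * d + 1) ^ 2 :=
        mul_le_mul_of_nonneg_left (pow_le_pow_left₀ (Nat.cast_nonneg _) hΔ2 2) (by positivity)
      have h3 : g / 3 * (Δ : ℝ) ^ 2 ≤ ((mis G (A v s)).card : ℝ) := h2.trans h1
      convert h3)
    (by intro u _; simp)
    (by
      intro v
      have h1 : univ.filter (fun u => u ∈ UH ∧ G.Adj v u) = nb G v ∩ UH := by
        ext u
        simp only [mem_filter, mem_univ, true_and, mem_inter, mem_nb]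
        exact and_comm
      rw [h1]
      exact hH.two v)
    (by
      intro s
      have h1 : ((univ.filter (fun y => pal y = s.2 ∧ τ y.2 = none)).image (fun y => e (s.1, y))).card =
          (univ.filter (fun y => pal y = s.2 ∧ τ y.2 = none)).card := by
        apply card_image_of_injective
        intro y y' h
        have := he h
        exact (Prod.mk.injEq _ _ _ _ ▸ this : _ ∧ _).2
      rw [h1]
      have h2 := hpal s.2
      have h3 : (1 - κX / 2) * (p * d) ≤ ((univ.filter (fun y => pal y = s.2 ∧ τ y.2 = none)).card : ℝ) := by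
        have h4 : 0 < (2 * (m : ℝ) + 1) * ((r : ℝ) + 1) := by positivity
        have h5 : (1 - κX / 2) * (p * d) = (1 - κX / 2) * d / ((2 * (m : ℝ) + 1) * ((r : ℝ) + 1)) := by
          rw [hp]; ring
        rw [h5, div_le_iff₀ h4]
        linarith
      refine le_trans ?_ h3
      have h6 : σ ≤ κX * p / 4 := min_le_right _ _
      have hd0 : (0 : ℝ) ≤ d := Nat.cast_nonneg _
      have h7 : σ * d ≤ κX * p / 4 * d := mul_le_mul_of_nonneg_right h6 hd0
      have h8 : (1 - κX) * Δ ≤ (1 - κX) * ((p + σ) * d + 1) :=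
        mul_le_mul_of_nonneg_left hΔ2 (by linarith)
      nlinarith)
    (by
      intro s s' hss
      rw [Finset.disjoint_left]
      intro x hx hx'
      obtain ⟨y, hy, rfl⟩ := mem_image.1 hx
      obtain ⟨y', hy', h⟩ := mem_image.1 hx'
      rw [mem_filter] at hy hy'
      have h1 := he h
      rw [Prod.mk.injEq] at h1
      apply hss
      refine Prod.ext h1.1.symm ?_
      rw [← hy.2.1, ← hy'.2.1, h1.2])
  refine ⟨fun v => if v ∈ UH then c0 v else c v, ?_, ?_, ?_⟩
  · intro v hv
    simp only [if_pos hv]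
  · intro v hv
    simp only [if_neg hv]
    obtain ⟨y, hy, hy'⟩ := mem_image.1 (hc1 v hv)
    exact ⟨y, hy'.symm, (mem_filter.1 hy).2⟩
  · intro v v' hvv
    by_cases hv : v ∈ UH
    · by_cases hv' : v' ∈ UH
      · simp only [if_pos hv, if_pos hv']
        exact hH.cc v v' (hH.ind v hv v' hv' hvv)
      · simp only [if_pos hv, if_neg hv']
        have := hc3 v' hv' v hv hvv.symm
        intro h
        exact this (by rw [mem_singleton]; exact h.symm)
    · by_cases hv' : v' ∈ UH
      · simp only [if_neg hv, if_pos hv']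
        have := hc3 v hv v' hv' hvv
        intro h
        exact this (by rw [mem_singleton]; exact h)
      · simp only [if_neg hv, if_neg hv']
        exact hc2 v v' hv hv' hvv

end Pool.Agent.Work.MP_db9399_lh.helper99
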